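import Mathlib
import Pool.Agent.N178.HX.StmF
import Pool.Agent.N830.HC.C1

/-!
# Complex multiplication by subfields, and factors of abelian varieties of CM type
-/

set_option linter.unusedSectionVars false

namespace Pool.Agent.N494.HX

open Finset Matrix Module NumberField Pool.Agent.W437.HC Pool.Agent.W437.HD Pool.Agent.Y90
open Pool.Agent.R915
open Pool.Agent.H204R3.CM (IsHodge IsCMType)
open Pool.Agent.W547.KB (CMPair CMAV single)
open Pool.Agent.N830.HC (HasCMultIn av exists_typeK)

noncomputable section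

/-- Simple abelian varieties with complex multiplication by a subfield of `L`. -/
theorem factor_of_cm (L : Type) [Field L] [NumberField L] [IsCMField L] (Y : AV) (hs : IsSimple Y)
    (hc : HasCMultIn Y L) :
    ∃ (Φ : Set (L →+* ℂ)) (hΦ : IsCMType Φ), IsFactor Y (av (single ⟨L, Φ, hΦ⟩)) := by
  obtain ⟨P, -, ι, ⟨e, Ψ, hΨ⟩, -⟩ := exists_typeK Y hs hc
  let Φ : Set (L →+* ℂ) := {ψ | ψ.comp ι ∈ P.Φ}
  have hΦ : IsCMType Φ := by
    intro ψ
    change ψ.comp ι ∈ P.Φ ↔ (ComplexEmbedding.conjugate ψ).comp ι ∉ P.Φ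
    exact P.isCMType (ψ.comp ι)
  refine ⟨Φ, hΦ, hs, ?_⟩
  let C : CMAV := single ⟨L, Φ, hΦ⟩
  let i : Y.H →ₗ[ℚ] C.H1 :=
    { toFun := fun v => ((fun _ => ι (e v)) : C.H1)
      map_add' := fun u v => by
        funext _
        change ι (e (u + v)) = ι (e u) + ι (e v)
        rw [map_add, map_add]
      map_smul' := fun c v => by
        funext _
        change ι (e (c • v)) = c • ι (e v)
        rw [map_smul, map_rat_smul] }
  refine ⟨i, ⟨{ toFun := fun t => ((fun _ φ => Ψ t ⟨φ.1.comp ι, φ.2⟩) : C.Tan)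
                map_add' := fun u v => ?_
                map_smul' := fun c u => ?_ }, fun v => ?_⟩, fun u v huv => ?_⟩
  · funext _ φ
    change Ψ (u + v) _ = Ψ u _ + Ψ v _
    rw [map_add]
    rfl
  · funext _ φ
    change Ψ (c • u) _ = c • Ψ u _
    rw [map_smul]
    rfl
  · funext _ φ
    exact hΨ v ⟨φ.1.comp ι, φ.2⟩
  · have h1 : ι (e u) = ι (e v) := congrFun huv ()
    exact e.injective (ι.injective h1)

/-- Elliptic curves with complex multiplication by an imaginary quadratic subfield of `L`. -/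
theorem factor_ell (L : Type) [Field L] [NumberField L] [IsCMField L] (d : ℚ) (hd : 0 < d) (s : L)
    (hs : s * s = -(d : L)) : ∃ (Φ : Set (L →+* ℂ)) (hΦ : IsCMType Φ) (E : AV),
      IsFactor E (av (single ⟨L, Φ, hΦ⟩)) ∧ finrank ℚ E.H = 2 ∧ Unbalanced E d := by
  have hr := rt_pos hd
  have him : ∀ ψ : L →+* ℂ, ψ s = Complex.I * (rt d : ℂ) ∨ ψ s = -(Complex.I * (rt d : ℂ)) := by
    intro ψ
    have h2 : ψ s * ψ s = -(d : ℂ) := by rw [← map_mul, hs, map_neg, map_ratCast]
    have h3 := rt_sqC hd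
    have h1 : (ψ s - Complex.I * (rt d : ℂ)) * (ψ s + Complex.I * (rt d : ℂ)) = 0 := by
      linear_combination h2 + h3 - (rt d : ℂ) ^ 2 * Complex.I_mul_I
    rcases mul_eq_zero.1 h1 with h | h
    · exact Or.inl (sub_eq_zero.1 h)
    · exact Or.inr (eq_neg_of_add_eq_zero_left h)
  have hIm : (Complex.I * (rt d : ℂ)).im = rt d := by
    simp
  let Φ : Set (L →+* ℂ) := {ψ | 0 < (ψ s).im}
  have hΦ : IsCMType Φ := by
    intro ψ
    change 0 < (ψ s).im ↔ ¬ 0 < (starRingEnd ℂ (ψ s)).im
    rw [Complex.conj_im]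
    rcases him ψ with h | h
    · rw [h, hIm]
      exact ⟨fun _ => by linarith, fun _ => hr⟩
    · rw [h, Complex.neg_im, hIm]
      exact ⟨fun _ => by linarith, fun h1 => absurd (by linarith) h1⟩
  have hmem : ∀ ψ ∈ Φ, ψ s = Complex.I * (rt d : ℂ) := by
    intro ψ hψ
    rcases him ψ with h | h
    · exact h
    · exfalso
      have h1 : 0 < (ψ s).im := hψ
      rw [h, Complex.neg_im, hIm] at h1
      linarith
  have hpm : PM (ZE (fun _ : Fin 1 => d) (fun _ => 1)) :=
    pmE (M := 1) (fun _ => hd) (l := fun _ => 1) (fun _ => one_pos)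
  refine ⟨Φ, hΦ, AVZ hpm, ⟨⟨⟨fun _ => 1, fun h0 => ?_⟩, simpleE hd⟩, ?_⟩, ?_, unbE hd⟩
  · exact one_ne_zero (congrFun h0 (Sum.inl 0))
  · let C : CMAV := single ⟨L, Φ, hΦ⟩
    let i : (Fin 1 ⊕ Fin 1 → ℚ) →ₗ[ℚ] C.H1 :=
      { toFun := fun v => ((fun _ => (v (Sum.inl 0) : L) + (v (Sum.inr 0) : L) * s) : C.H1)
        map_add' := fun u v => by
          funext _
          change ((u (Sum.inl 0) + v (Sum.inl 0) : ℚ) : L) + ((u (Sum.inr 0) + v (Sum.inr 0) : ℚ) : L) * s =
            ((u (Sum.inl 0) : L) + (u (Sum.inr 0) : L) * s) + ((v (Sum.inl 0) : L) + (v (Sum.inr 0) : L) * s)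
          push_cast
          ring
        map_smul' := fun c v => by
          funext _
          change ((c * v (Sum.inl 0) : ℚ) : L) + ((c * v (Sum.inr 0) : ℚ) : L) * s =
            c • ((v (Sum.inl 0) : L) + (v (Sum.inr 0) : L) * s)
          rw [Rat.smul_def]
          push_cast
          ring }
    refine ⟨i, ⟨{ toFun := fun (t : Fin 1 → ℂ) => ((fun _ _ => t 0) : C.Tan)
                  map_add' := fun u v => rfl
                  map_smul' := fun c u => rfl }, fun v => ?_⟩, fun u v huv => ?_⟩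
    · funext _ φ
      change (v (Sum.inl 0) : ℂ) + ∑ k, ZE (fun _ : Fin 1 => d) (fun _ => 1) 0 k * (v (Sum.inr k) : ℂ) =
        φ.1 ((v (Sum.inl 0) : L) + (v (Sum.inr 0) : L) * s)
      rw [map_add, map_mul, map_ratCast, map_ratCast, hmem φ.1 φ.2, Fin.sum_univ_one]
      unfold ZE
      rw [diagonal_apply_eq]
      push_cast
      ring
    · have h1 : (u (Sum.inl 0) : L) + (u (Sum.inr 0) : L) * s =
          (v (Sum.inl 0) : L) + (v (Sum.inr 0) : L) * s := congrFun huv ()
      let ψ : L →+* ℂ := Classical.choice inferInstance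
      have h2 := congrArg ψ h1
      rw [map_add, map_mul, map_ratCast, map_ratCast, map_add, map_mul, map_ratCast,
        map_ratCast] at h2
      have h3 : u (Sum.inr 0) = v (Sum.inr 0) ∧ u (Sum.inl 0) = v (Sum.inl 0) := by
        have h4 := congrArg Complex.im h2
        have h5 := congrArg Complex.re h2
        rcases him ψ with h | h
        · rw [h] at h4 h5
          simp at h4 h5
          refine ⟨?_, ?_⟩
          · rcases h4 with h4 | h4
            · exact_mod_cast h4
            · exact absurd h4 hr.ne'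
          · exact_mod_cast h5
        · rw [h] at h4 h5
          simp at h4 h5
          refine ⟨?_, ?_⟩
          · rcases h4 with h4 | h4
            · exact_mod_cast h4
            · exact absurd h4 hr.ne'
          · exact_mod_cast h5
      funext x
      rcases x with x | x
      · rw [Subsingleton.elim x 0]
        exact h3.2
      · rw [Subsingleton.elim x 0]
        exact h3.1
  · change finrank ℚ (Fin 1 ⊕ Fin 1 → ℚ) = 2
    rw [finrank_fintype_fun_eq_card, Fintype.card_sum, Fintype.card_fin]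

theorem t_TOT : Pool.Agent.N178.HX.S_TOT := by
  intro L _ _ _
  exact ⟨fun Y hs hc => factor_of_cm L Y hs hc, fun d hd ⟨s, hs⟩ => factor_ell L d hd s hs⟩

end

end Pool.Agent.N494.HX
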